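import Pool.Agent.H73.G.R8.Y776.AxJ.Alg

/-!
# Two algebraically dependent values of `j`: the Schwarzian argument
-/

set_option autoImplicit false

open Filter Topology

noncomputable section

namespace Pool.Agent.X39.Near.Sch

open Pool.Agent.Y685 Pool.Agent.Y776 Pool.Agent.Y776.AxJ
open Pool.Agent.TH813.Rel (DF MK exists_derF bracket_mem)

variable {D δ : Derivation ℚ ℂ ℂ}

theorem dsq (δ : Derivation ℚ ℂ ℂ) (a : ℂ) : δ (a ^ 2) = 2 * a * δ a := by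
  rw [sq, dmul]; ring

theorem dcu (δ : Derivation ℚ ℂ ℂ) (a : ℂ) : δ (a ^ 3) = 3 * a ^ 2 * δ a := by
  rw [show a ^ 3 = a * a * a by ring, dmul, dmul]; ring

/-- the flow at one place -/
structure Fl (D : Derivation ℚ ℂ ℂ) (b h p q c : ℂ) : Prop where
  b0 : b ≠ 0
  c0 : c ≠ 0
  p0 : p ≠ 0
  q0 : q ≠ 0
  d0 : p ^ 3 - 27 * q ^ 2 ≠ 0
  db : D b = 0
  dh : D h = (b * h ^ 2 - b * p / 12) * c
  dp : D p = (4 * b * h * p - 6 * b * q) * c
  dq : D q = (6 * b * h * q - b * p ^ 2 / 3) * c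

variable {b h p q c : ℂ}

/-- the derivative of the invariant -/
theorem Fl.dg (H : Fl D b h p q c) :
    D (p ^ 3 / q ^ 2) = 2 / 3 * b * p ^ 2 * (p ^ 3 - 27 * q ^ 2) * c / q ^ 3 := by
  have hq := H.q0
  rw [ddiv _ _ (pow_ne_zero 2 hq), dcu, dsq, H.dp, H.dq]
  field_simp
  ring

theorem Fl.dg0 (H : Fl D b h p q c) : D (p ^ 3 / q ^ 2) ≠ 0 := by
  rw [H.dg]
  exact div_ne_zero (mul_ne_zero (mul_ne_zero (mul_ne_zero (mul_ne_zero (by norm_num) H.b0) (pow_ne_zero 2 H.p0)) H.d0)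
    H.c0) (pow_ne_zero 3 H.q0)

/-- the factor -/
def mm (b h p q : ℂ) : ℂ := 2 * b * h - 12 * b * q / p + b * p ^ 2 / q

theorem Fl.dd (H : Fl D b h p q c) : D (p ^ 3 - 27 * q ^ 2) = 12 * b * h * (p ^ 3 - 27 * q ^ 2) * c := by
  rw [map_sub, dcu, dmul, dsq, dnat, H.dp, H.dq]
  ring

theorem Fl.ddg (H : Fl D b h p q c) :
    D (D (p ^ 3 / q ^ 2)) / D (p ^ 3 / q ^ 2) = mm b h p q * c + D c / c := by
  have hq := H.q0
  have hp := H.p0
  have hb := H.b0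
  have hc := H.c0
  have hd := H.d0
  rw [div_eq_iff H.dg0, H.dg, ddiv _ _ (pow_ne_zero 3 hq), dmul, dmul, dmul, dmul, dinvn, H.db, dsq, dcu, H.dd, H.dp, H.dq,
    dnat, mm]
  set Δ := p ^ 3 - 27 * q ^ 2 with hΔ
  field_simp
  ring

theorem Fl.dm (H : Fl D b h p q c) : D (mm b h p q) = (2 * (b ^ 2 * h ^ 2 - b ^ 2 * p / 12) -
    12 * b ^ 2 * (2 * h * q / p - p / 3 + 6 * q ^ 2 / p ^ 2) +
      b ^ 2 * (2 * h * p ^ 2 / q - 12 * p + p ^ 4 / (3 * q ^ 2))) * c := by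
  have hq := H.q0
  have hp := H.p0
  rw [mm, map_add, map_sub, dmul, dmul, ddiv _ _ hp, ddiv _ _ hq, dmul, dmul, dmul, H.db, dsq, H.dh, H.dp, H.dq, dnat, dnat]
  field_simp
  ring

/-- the function in the Schwarzian equation -/
def rho (g : ℂ) : ℂ := 3 * (23 * g - 864 - g ^ 2) / (8 * g ^ 2 * (g - 27) ^ 2)

/-- the Schwarzian derivative -/
def S2 (D : Derivation ℚ ℂ ℂ) (c : ℂ) : ℂ := D (D c / c) - (D c / c) ^ 2 / 2

/-- **the Schwarzian equation** -/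
theorem Fl.sch (H : Fl D b h p q c) :
    S2 D (D (p ^ 3 / q ^ 2)) = S2 D c + rho (p ^ 3 / q ^ 2) * D (p ^ 3 / q ^ 2) ^ 2 := by
  have hq := H.q0
  have hp := H.p0
  have hc := H.c0
  have hd := H.d0
  have h1 : p ^ 3 / q ^ 2 - 27 ≠ 0 := by
    intro h0
    apply hd
    have h2 : p ^ 3 / q ^ 2 = 27 := sub_eq_zero.1 h0
    rw [div_eq_iff (pow_ne_zero 2 hq)] at h2
    rw [h2, sub_self]
  have h2 : rho (p ^ 3 / q ^ 2) * D (p ^ 3 / q ^ 2) ^ 2 =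
      b ^ 2 * (23 / 6 * p - 144 * q ^ 2 / p ^ 2 - p ^ 4 / (6 * q ^ 2)) * c ^ 2 := by
    have h3 : p ^ 3 / q ^ 2 - 27 = (p ^ 3 - 27 * q ^ 2) / q ^ 2 := by
      field_simp
    rw [rho, h3, H.dg]
    set Δ := p ^ 3 - 27 * q ^ 2 with hΔ
    field_simp
    ring
  have e : D (mm b h p q * c + D c / c) = D (mm b h p q) * c + mm b h p q * D c + D (D c / c) := by
    rw [map_add, dmul]
  rw [S2, H.ddg, h2, S2, e, H.dm, mm]
  set l := D c with hl
  set m := D (l / c) with hm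
  field_simp
  ring

theorem D_mem (D : Derivation ℚ ℂ ℂ) : D ∈ DF (Cst D) := fun _ h => h

/-- stability under a multiple of the derivation -/
theorem stab {x y : ℂ} (hx : D x ≠ 0) (hy : y ∈ clo (Cst D) {x}) : D y / D x ∈ clo (Cst D) {x} := by
  have h1 : ((D x)⁻¹ • D) ∈ DF (Cst D) := (DF _).smul_mem _ (D_mem D)
  have h2 := der_clo (D := (D x)⁻¹ • D) (C := Cst D) (S := {x}) h1 (fun s hs => by
    rw [Set.mem_singleton_iff.1 hs, Derivation.smul_apply, smul_eq_mul, inv_mul_cancel₀ hx]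
    exact one_mem _) hy
  rwa [Derivation.smul_apply, smul_eq_mul, inv_mul_eq_div] at h2

variable {h₁ p₁ q₁ c₁ h₂ p₂ q₂ c₂ z : ℂ}

theorem rho_mem {K : IntermediateField ℚ ℂ} {g : ℂ} (hg : g ∈ K) : rho g ∈ K := by
  have mn : ∀ n : ℕ, (n : ℂ) ∈ K := fun n => natCast_mem _ n
  have m3 := mn 3
  have m23 := mn 23
  have m864 := mn 864
  have m8 := mn 8
  have m27 := mn 27
  push_cast at m3 m23 m864 m8 m27
  exact div_mem (mul_mem m3 (sub_mem (sub_mem (mul_mem m23 hg) m864) (pow_mem hg 2)))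
    (mul_mem (mul_mem m8 (pow_mem hg 2)) (pow_mem (sub_mem hg m27) 2))

/-- **the first step**: the Schwarzian derivatives agree -/
theorem step (H₁ : Fl D b h₁ p₁ q₁ c₁) (H₂ : Fl D b h₂ p₂ q₂ c₂) (hDz : D z = 1)
    (hc₁ : c₁ ∈ clo (Cst D) {z}) (hc₂ : c₂ ∈ clo (Cst D) {z})
    (hg : p₂ ^ 3 / q₂ ^ 2 ∈ clo (Cst D) {p₁ ^ 3 / q₁ ^ 2})
    (hδ : ∃ δ ∈ DF (Cst D), δ z = 0 ∧ δ p₁ = 2 * p₁ ∧ δ q₁ = 3 * q₁) : S2 D c₂ = S2 D c₁ := by
  set g₁ := p₁ ^ 3 / q₁ ^ 2 with hg₁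
  set g₂ := p₂ ^ 3 / q₂ ^ 2 with hg₂
  have n1 : D g₁ ≠ 0 := H₁.dg0
  have n2 : D g₂ ≠ 0 := H₂.dg0
  have e1 := H₁.sch
  have e2 := H₂.sch
  rw [← hg₁] at e1
  rw [← hg₂] at e2
  set K := clo (Cst D) {g₁} with hK
  have mg1 : g₁ ∈ K := subset_clo rfl
  set α := D g₂ / D g₁ with hα
  have mα : α ∈ K := stab n1 hg
  have nα : α ≠ 0 := div_ne_zero n2 n1
  set α' := D α / D g₁ with hα'
  have mα' : α' ∈ K := stab n1 mα
  set β := α' / α with hβ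
  have mβ : β ∈ K := div_mem mα' mα
  set γ := D β / D g₁ with hγ
  have mγ : γ ∈ K := stab n1 mβ
  have f1 : D g₂ = α * D g₁ := by rw [hα, div_mul_cancel₀ _ n1]
  have f2 : D α = α * β * D g₁ := by
    rw [hβ, hα']
    field_simp
  have f3 : D β = γ * D g₁ := by rw [hγ, div_mul_cancel₀ _ n1]
  -- the chain rule
  have f4 : S2 D (D g₂) = S2 D (D g₁) + (γ - β ^ 2 / 2) * D g₁ ^ 2 := by
    have e3 : D (D g₂) / D g₂ = β * D g₁ + D (D g₁) / D g₁ := by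
      rw [f1, dmul, f2]
      field_simp
    rw [S2, e3, map_add, dmul, f3, S2]
    set L := D (D (D g₁) / D g₁) with hL
    field_simp
    ring
  set A := rho g₁ + (γ - β ^ 2 / 2) - rho g₂ * α ^ 2 with hA
  have m2 : (2 : ℂ) ∈ K := by
    have := natCast_mem K 2
    exact_mod_cast this
  have mA : A ∈ K := sub_mem (add_mem (rho_mem mg1) (sub_mem mγ (div_mem (pow_mem mβ 2) m2)))
    (mul_mem (rho_mem hg) (pow_mem mα 2))
  have f5 : S2 D c₂ - S2 D c₁ = A * D g₁ ^ 2 := by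
    rw [hA]
    rw [e1, e2, f1] at f4
    linear_combination f4
  -- a derivation
  obtain ⟨δ, hδ, d1, d2, d3⟩ := hδ
  have dg1 : δ g₁ = 0 := by
    rw [hg₁, ddiv _ _ (pow_ne_zero 2 H₁.q0), dcu, dsq, d2, d3]
    have := H₁.q0
    field_simp
    ring
  have dA : δ A = 0 := mA δ hδ (fun s hs => by rw [Set.mem_singleton_iff.1 hs]; exact dg1)
  have hzz : ∀ y ∈ clo (Cst D) {z}, δ y = 0 := fun y hy => hy δ hδ (fun s hs => by
    rw [Set.mem_singleton_iff.1 hs]; exact d1)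
  have hst : ∀ y ∈ clo (Cst D) {z}, D y ∈ clo (Cst D) {z} := fun y hy => by
    have := stab (D := D) (x := z) (by rw [hDz]; exact one_ne_zero) hy
    rwa [hDz, div_one] at this
  have mz2 : (2 : ℂ) ∈ clo (Cst D) {z} := by
    have := natCast_mem (clo (Cst D) {z}) 2
    exact_mod_cast this
  have mS : ∀ c ∈ clo (Cst D) {z}, S2 D c ∈ clo (Cst D) {z} := fun c hc =>
    sub_mem (hst _ (div_mem (hst _ hc) hc)) (div_mem (pow_mem (div_mem (hst _ hc) hc) 2) mz2)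
  have dS : δ (S2 D c₂ - S2 D c₁) = 0 := hzz _ (sub_mem (mS _ hc₂) (mS _ hc₁))
  have dc1 : δ c₁ = 0 := hzz _ hc₁
  have db : δ b = 0 := hδ b H₁.db
  have dD : δ (D g₁) = D g₁ := by
    have hq := H₁.q0
    rw [hg₁, H₁.dg, ddiv _ _ (pow_ne_zero 3 hq), dmul, dmul, dmul, dmul, dinvn, db, dsq, dcu, map_sub, dcu, dmul, dsq,
      d2, d3, dc1, dnat, dnat]
    field_simp
    ring
  rw [f5, dmul, dA, dsq, dD, zero_mul, zero_add] at dS
  have hA0 : A = 0 := by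
    rcases mul_eq_zero.1 dS with h | h
    · exact h
    · exfalso
      rcases mul_eq_zero.1 h with h | h
      · exact n1 ((mul_eq_zero.1 h).resolve_left two_ne_zero)
      · exact n1 h
  rw [hA0, zero_mul] at f5
  exact sub_eq_zero.1 f5

end Pool.Agent.X39.Near.Sch
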