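import Pool.Agent.H73.G.R8.X39.Near.Sch

/-!
# `j (τ₁)` and `j (τ₂)` are algebraically independent if `exp (2 π i τ₁)`, `exp (2 π i τ₂)` are multiplicatively
independent polynomials
-/

set_option autoImplicit false

open Filter Topology MvPolynomial

noncomputable section

namespace Pool.Agent.X39.Near.Sch

open Pool.Agent.Y685 Pool.Agent.Y776 Pool.Agent.Y776.AxJ
open Pool.Agent.TH813.Rel (DF MK exists_derF bracket_mem)
open Pool.Agent.TH813.Ell (mem_cl_iff)
open Pool.Agent.Y776.Fam (TS TS_countable Gn countable_Gn countable_zeros IndC exists_cf exists_notMem countable_fam)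
open Pool.Agent.Y776.Cv (FInd)

variable {U : Set ℂ} {τ : Fin 2 → ℂ → ℂ} {P : Fin 2 → Polynomial ℂ}

/-- two numbers, the first one not constant, which satisfy an equation -/
theorem mem_of_eq {C : IntermediateField ℚ ℂ} {D : Derivation ℚ ℂ ℂ} (hD : D ∈ DF C) {x y : ℂ} (hx : D x ≠ 0)
    {Q : MvPolynomial (Fin 2) C} (hQ : Q ≠ 0) (h : aeval ![x, y] Q = 0) : y ∈ clo C {x} := by
  classical
  by_contra hcon
  have h1 : x ∉ (MK C).closure ∅ := by
    intro hx'
    exact hx ((mem_cl_iff ∅ x).1 hx' D hD (fun y hy => absurd hy (Set.notMem_empty y)))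
  obtain ⟨i1, -⟩ := ((MK C).empty_indep.notMem_closure_iff (Set.mem_univ _)).1 h1
  have h2 : y ∉ (MK C).closure (insert x ∅) := by
    rw [← mem_clo_iff]
    simpa using hcon
  obtain ⟨i2, hne⟩ := (i1.notMem_closure_iff (Set.mem_univ _)).1 h2
  have hind : AlgebraicIndependent C (fun i : ↥(insert y (insert x (∅ : Set ℂ))) => (i : ℂ)) := i2
  have hxy : y ≠ x := fun h => hne (Or.inl h)
  have hcomp := hind.comp (![⟨x, Or.inr (Or.inl rfl)⟩, ⟨y, Or.inl rfl⟩] : Fin 2 → ↥(insert y (insert x (∅ : Set ℂ))))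
    (by
      intro a b hab
      fin_cases a <;> fin_cases b
      · rfl
      · exact absurd (congrArg Subtype.val hab) hxy.symm
      · exact absurd (congrArg Subtype.val hab) hxy
      · rfl)
  have hfun : ((fun i : ↥(insert y (insert x (∅ : Set ℂ))) => (i : ℂ)) ∘
      (![⟨x, Or.inr (Or.inl rfl)⟩, ⟨y, Or.inl rfl⟩] : Fin 2 → ↥(insert y (insert x (∅ : Set ℂ))))) = ![x, y] := by
    funext a
    fin_cases a <;> rfl
  rw [hfun] at hcomp
  exact hQ ((injective_iff_map_eq_zero _).1 hcomp Q h)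

end Pool.Agent.X39.Near.Sch
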